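import Pool.Agent.helper57.LQ.SpecA

/-!
# Row lq:AF2 (MP_ebc808_nt)
-/

set_option autoImplicit false

open Finset PowerSeries

noncomputable section

namespace Pool.Agent.LQ

theorem AF2_one (n : ℕ) (h : FF) : coeff 1 (T n h) = coeff n h := by
  rw [coeff_T, Nat.gcd_one_left, Nat.divisors_one, Finset.sum_singleton, one_mul, one_pow, Nat.div_one]

theorem AF2_sq (c : ZMod 2) : c * c = c := by
  revert c
  decide

theorem AF2 (hALG : ALG_stmt) : AF2_stmt := by
  intro N hN A hA
  obtain ⟨-, hmul⟩ := hALG N hN
  unfold TT at hA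
  induction hA using Submodule.span_induction with
  | mem A hA =>
    intro f
    obtain ⟨n, hn, rfl⟩ := hA
    rw [AF2_one, AF2_one, coeff_Psi, if_pos hn, coeff_T, Nat.gcd_self,
      ← Nat.sum_div_divisors n (fun e => coeff (e ^ 2) f)]
    refine Finset.sum_congr rfl fun d hd => ?_
    have hdn : d ∣ n := Nat.dvd_of_mem_divisors hd
    rw [Nat.div_pow hdn, sq n]
  | zero =>
    intro f
    simp
  | add A B hA hB ihA ihB =>
    intro f
    have hc : A (B f) = B (A f) := by
      have h1 := (hmul A hA B hB).2
      have h2 := congrArg (fun C : Module.End (ZMod 2) FF => C f) h1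
      exact h2
    have e1 : (A + B) ((A + B) f) = (A (A f) + B (B f)) + (B (A f) + B (A f)) := by
      simp only [LinearMap.add_apply, map_add]
      rw [hc]
      abel
    rw [e1, add_self_FF, add_zero, map_add, ihA f, ihB f, LinearMap.add_apply, map_add]
  | smul c A hA ih =>
    intro f
    have e1 : (c • A) ((c • A) f) = (c * c) • A (A f) := by
      simp only [LinearMap.smul_apply, map_smul, smul_smul]
    have e2 : c * c = c := AF2_sq c
    rw [e1, e2, LinearMap.smul_apply, map_smul, map_smul, ih f]

end Pool.Agent.LQ
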